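import Pool.Agent.H52.HMS.LBase

set_option autoImplicit false

namespace Pool.HMS

open TMLib Finset

theorem lswg_thm : S_LSWG := by
  intro D m B s k hk a ha b hb
  have h1 : ∀ a < D, ∀ x, bas D B (lsw D k s).1 a x = bas D B s.1 (tr k a) x := by
    intro a ha x
    unfold bas
    refine Finset.sum_congr rfl fun c hc => ?_
    rw [lsw]
    dsimp only
    rw [ent_tabM, if_pos ⟨ha, Finset.mem_range.1 hc⟩]
  unfold gr
  refine Finset.sum_congr rfl fun x _ => ?_
  rw [h1 a ha, h1 b hb]

end Pool.HMS
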