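import Pool.Agent.H52.HMS.LBase

set_option autoImplicit false

namespace Pool.HMS

open TMLib Finset

private theorem luni_tr_lt {D k a : ℕ} (hk : k + 1 < D) (ha : a < D) : tr k a < D := by
  unfold tr
  split_ifs <;> omega

private theorem luni_tr_eq (k a b : ℕ) : tr k a = tr k b ↔ a = b := by
  unfold tr
  split_ifs <;> omega

private theorem luni_isI_tabM {n m : ℕ} {f : ℕ → ℕ → ℚ} (h : ∀ i < n, ∀ j < m, IsI (f i j)) :
    ∀ i j, IsI (ent (tabM n m f) i j) := by
  intro i j
  rw [ent_tabM]
  split_ifs with hij
  · exact h i hij.1 j hij.2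
  · exact IsI.zero

theorem luni_thm : S_LUNI := by
  refine ⟨fun D => ?_, fun D i j c s hi hj hij hc hs => ?_, fun D k s hk hs => ?_⟩
  · have hI : ∀ i j, IsI (ent (tabM D D fun a b => if a = b then 1 else 0) i j) := by
      refine luni_isI_tabM fun i _ j _ => ?_
      split_ifs
      · exact IsI.one
      · exact IsI.zero
    refine ⟨length_tabM _ _ _, length_tabM _ _ _, fun r hr => length_of_mem_tabM hr,
      fun r hr => length_of_mem_tabM hr, hI, hI, fun i hi j hj => ?_⟩
    rw [Finset.sum_eq_single i]
    · rw [lId]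
      dsimp only
      rw [ent_tabM, ent_tabM, if_pos (⟨hi, hi⟩ : i < D ∧ i < D), if_pos rfl,
        if_pos (⟨hj, hi⟩ : j < D ∧ i < D), one_mul]
      by_cases h : i = j
      · rw [if_pos h, if_pos h.symm]
      · rw [if_neg h, if_neg (Ne.symm h)]
    · intro b hb hbi
      rw [lId]
      dsimp only
      rw [ent_tabM, if_pos ⟨hi, Finset.mem_range.1 hb⟩, if_neg hbi.symm, zero_mul]
    · intro h
      exact absurd (Finset.mem_range.2 hi) h
  · refine ⟨length_tabM _ _ _, length_tabM _ _ _, fun r hr => length_of_mem_tabM hr,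
      fun r hr => length_of_mem_tabM hr, ?_, ?_, fun a ha b hb => ?_⟩
    · refine luni_isI_tabM fun a _ b _ => ?_
      split_ifs
      · exact (hs.intU _ _).sub (hc.mul (hs.intU _ _))
      · exact hs.intU _ _
    · refine luni_isI_tabM fun a _ b _ => ?_
      split_ifs
      · exact (hs.intW _ _).add (hc.mul (hs.intW _ _))
      · exact hs.intW _ _
    · have hU : ∀ x ∈ range D, ent (lop D i j c s).1 a x =
          ent s.1 a x - (if a = i then c else 0) * ent s.1 j x := by
        intro x hx
        rw [lop]
        dsimp only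
        rw [ent_tabM, if_pos ⟨ha, Finset.mem_range.1 hx⟩]
        by_cases h : a = i
        · rw [if_pos h, if_pos h, h]
        · rw [if_neg h, if_neg h, zero_mul, sub_zero]
      have hW : ∀ x ∈ range D, ent (lop D i j c s).2 b x =
          ent s.2 b x + (if b = j then c else 0) * ent s.2 i x := by
        intro x hx
        rw [lop]
        dsimp only
        rw [ent_tabM, if_pos ⟨hb, Finset.mem_range.1 hx⟩]
        by_cases h : b = j
        · rw [if_pos h, if_pos h, h]
        · rw [if_neg h, if_neg h, zero_mul, add_zero]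
      rw [Finset.sum_congr rfl fun x hx => by rw [hU x hx, hW x hx]]
      set u := (if a = i then c else 0 : ℚ) with hu
      set w := (if b = j then c else 0 : ℚ) with hw
      have h1 : ∑ x ∈ range D, (ent s.1 a x - u * ent s.1 j x) * (ent s.2 b x + w * ent s.2 i x) =
          ∑ x ∈ range D, ent s.1 a x * ent s.2 b x - u * ∑ x ∈ range D, ent s.1 j x * ent s.2 b x +
          w * ∑ x ∈ range D, ent s.1 a x * ent s.2 i x -
          u * w * ∑ x ∈ range D, ent s.1 j x * ent s.2 i x := by
        rw [Finset.mul_sum, Finset.mul_sum, Finset.mul_sum, ← Finset.sum_sub_distrib,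
          ← Finset.sum_add_distrib, ← Finset.sum_sub_distrib]
        exact Finset.sum_congr rfl fun x _ => by ring
      rw [h1, hs.inv a ha b hb, hs.inv j hj b hb, hs.inv a ha i hi, hs.inv j hj i hi,
        if_neg (Ne.symm hij), hu, hw]
      by_cases h2 : a = i
      · by_cases h3 : b = j
        · rw [if_pos h2, if_pos h3, if_pos h3.symm, if_pos h2]
          ring
        · rw [if_pos h2, if_neg h3, if_neg (Ne.symm h3), if_pos h2]
          ring
      · by_cases h3 : b = j
        · rw [if_neg h2, if_pos h3, if_pos h3.symm, if_neg h2]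
          ring
        · rw [if_neg h2, if_neg h3, if_neg (Ne.symm h3), if_neg h2]
          ring
  · refine ⟨length_tabM _ _ _, length_tabM _ _ _, fun r hr => length_of_mem_tabM hr,
      fun r hr => length_of_mem_tabM hr, luni_isI_tabM fun a _ b _ => hs.intU _ _,
      luni_isI_tabM fun a _ b _ => hs.intW _ _, fun a ha b hb => ?_⟩
    have hU : ∀ x ∈ range D, ent (lsw D k s).1 a x = ent s.1 (tr k a) x := by
      intro x hx
      rw [lsw]
      dsimp only
      rw [ent_tabM, if_pos ⟨ha, Finset.mem_range.1 hx⟩]
    have hW : ∀ x ∈ range D, ent (lsw D k s).2 b x = ent s.2 (tr k b) x := by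
      intro x hx
      rw [lsw]
      dsimp only
      rw [ent_tabM, if_pos ⟨hb, Finset.mem_range.1 hx⟩]
    rw [Finset.sum_congr rfl fun x hx => by rw [hU x hx, hW x hx],
      hs.inv _ (luni_tr_lt hk ha) _ (luni_tr_lt hk hb)]
    by_cases h : a = b
    · rw [if_pos h, if_pos ((luni_tr_eq k a b).2 h)]
    · rw [if_neg h, if_neg (fun h' => h ((luni_tr_eq k a b).1 h'))]

end Pool.HMS
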